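import Pool.Agent.H98.PW.All
import Pool.Agent.H34.RIC.ENG
import Pool.Agent.H42.RIC.POW
import Pool.Agent.H44.RIC.CNT
import Pool.Agent.H49.RIC.WAA
import Pool.Agent.H51.RIC.MOM
import Pool.Agent.H71.RIC.RCH
import Pool.Agent.H88.RIC.STR
import Pool.Agent.H40.SHA.SRD
import Pool.Agent.H49.MED.RTN
import Pool.Agent.H99.MED.RTS
import Pool.Agent.H2.FEX.OMB
import Pool.Agent.H10.FEW.EN

/-! # RIC: assembly -/

set_option autoImplicit false

namespace Pool.RIC

theorem all_CNT : S_CNT := cnt_thm Pool.SHA.srd_thm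

theorem all_MOM : S_MOM := mom_thm (Pool.MED.rtn_thm Pool.MED.rts_thm) Pool.FEX.omb_thm

theorem all_ENG : S_ENG := eng_thm all_MOM all_CNT Pool.FEW.en_thm

theorem all_RCH : S_RCH := rch_thm all_ENG all_CNT

theorem all_STR : S_STR := str_thm

theorem all_POW : S_POW := pow_thm Pool.PW.all_PWR all_CNT

/-- **Almost no triple is large**: for every `ε` there is `K` such that, for every `κ`, the
number of coprime `(a, b)` with `R = rad (a b (a + b)) ≤ X` and `R ^ K ≤ a + b ≤ R ^ κ` is
`≤ C X ^ (2/5 + ε)`. -/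
theorem all_WAA : S_WAA := waa_thm all_RCH all_STR all_POW

end Pool.RIC
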