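import Pool.Agent.H10.FEX.Stmts
import Pool.Agent.H47.MED.Stmts
import Pool.Agent.H98.PW.Stmts2

/-!
# RIC: exceptions to weak abc of polynomial height: at most `C X ^ (2 / 5 + ε)`

Proofs in words: the docstrings (and `/team-store/RIC_PLAN_helper10.md`).  Module `XXX` is a theorem
`xxx_thm (h1 : S_AAA) ... : S_XXX` in `Pool/Agent/H<k>/RIC/XXX.lean` (import this file, namespace
`Pool.RIC`).
-/

set_option autoImplicit false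

namespace Pool.RIC

open Finset Pool.Agent.H98.ABCR Pool.SHA

/-- `n` has a divisor `≥ X ^ 3` of radical `≤ X ^ ν` -/
def Rich (ν X : ℝ) (n : ℕ) : Prop := ∃ q : ℕ, q ∣ n ∧ X ^ (3 : ℝ) ≤ q ∧ (rad q : ℝ) ≤ X ^ ν

/-- CNT: numbers `≤ X ^ κ` of small radical (from `Pool.SHA.S_SRD`: `1 ≤ Y / rad n`, and
`C √(κ log X) ≤ ε log X + C'`) -/
def S_CNT : Prop := ∀ κ ε : ℝ, 0 < κ → 0 < ε → ∃ C : ℝ, 1 ≤ C ∧ ∀ (X Y : ℝ) (T : Finset ℕ),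
  1 ≤ X → 1 ≤ Y → (∀ n ∈ T, 0 < n ∧ (n : ℝ) ≤ X ^ κ ∧ (rad n : ℝ) ≤ Y) →
  (T.card : ℝ) ≤ C * X ^ ε * Y

/-- MOM: moments.  For each of the `≤ P ^ t` tuples `w.2`, with product `B`, the products `A < (2 P) ^ t
≤ q` with `A ^ e ≡ B ^ e` number at most `2 (2 J) ^ ω(q)` (`Pool.MED.S_RTN`), and each `A` is a product
of `t` squarefree numbers in at most `2 ^ (t ω(A))` ways (for each prime of `A` the set of the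
factors which it divides); `Pool.FEX.S_OMB` twice. -/
def S_MOM : Prop := ∀ (t J : ℕ) (ε : ℝ), 0 < ε → ∃ C : ℝ, 1 ≤ C ∧ ∀ (q e P : ℕ) (U : Finset ℕ),
  1 ≤ e → e ≤ J → 1 ≤ P → (∀ u ∈ U, Squarefree u ∧ u.Coprime q ∧ P ≤ u ∧ u < 2 * P) →
  (2 * P) ^ t ≤ q →
  ((((Fintype.piFinset fun _ : Fin t => U) ×ˢ (Fintype.piFinset fun _ : Fin t => U)).filter
    (fun w => (∏ i, w.1 i) ^ e ≡ (∏ i, w.2 i) ^ e [MOD q])).card : ℝ) ≤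
    C * (q : ℝ) ^ ε * (P : ℝ) ^ t

/-- ENG: collisions of numbers of small radical modulo `q ≥ X ^ 3`.  `J = ⌈8 κ / ε⌉ + 1`,
`η = ε / (8 J)`.  Write `n = t * ∏_{e ≤ J} u_e ^ e`, `u_e` the product of the primes of exponent `e`,
`rad t ≤ X ^ (κ / J)` (exponents `> J`).  Key of `n`: `t`, the dyadic classes `P_e ≤ u_e < 2 P_e`
(`P_e = 2 ^ k`), and the values of the `u_e` with `P_e < X ^ η`: at most
`C X ^ (κ / J + ε / 16) * (2 + log X / log 2) ^ J * (2 X ^ η) ^ J` keys (`S_CNT` with `Y = X ^ (κ / J)`).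
For one key the collisions number at most `2 B ∏_{P_e ≥ X ^ η} P_e ≤ 2 B Y`: `Pool.FEW.S_EN` (H10/FEW/EN,
`en_thm`) with `G = (ZMod q)ˣ`, `f e u = (u mod q) ^ e`, `B = C q ^ ε'` from `S_MOM` (the `t` there
satisfy `P ^ (t - 1) < ∏ P_e ≤ X`, so `t ≤ 1 + 1 / η` and `(2 P) ^ t ≤ 2 ^ t X ^ 2 ≤ q` for
`X ≥ 2 ^ (1 + 1 / η)`; `X` smaller: at most `X ^ (2 κ)` pairs).  Different keys: Cauchy-Schwarz,
`∑_x (∑_k N_k(x)) ^ 2 ≤ #keys * ∑_k ∑_x N_k(x) ^ 2 ≤ #keys ^ 2 * max`. -/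
def S_ENG : Prop := ∀ κ ε : ℝ, 1 ≤ κ → 0 < ε → ∃ C : ℝ, 1 ≤ C ∧
  ∀ (X Y : ℝ) (q : ℕ) (P : Finset ℕ), 1 ≤ X → 1 ≤ Y → Y ≤ X → X ^ (3 : ℝ) ≤ q → (q : ℝ) ≤ X ^ κ →
  (∀ n ∈ P, 0 < n ∧ (n : ℝ) ≤ X ^ κ ∧ (rad n : ℝ) ≤ Y ∧ n.Coprime q) →
  (((P ×ˢ P).filter (fun w => w.1 ≡ w.2 [MOD q])).card : ℝ) ≤ C * X ^ ε * Y

/-- RCH: triples with a rich coordinate of radical `≥ Y`.  Classes: `i`; `q ∣ coord v i`
(`≤ C X ^ (ν + ε / 4)` values by `S_CNT`, as `q ≤ X ^ κ`, take `κ ≥ 3`); dyadic classes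
`Y_j ≤ rad (coord v j) < 2 Y_j` for the two other coordinates `j, k`, `Y_j Y_k ≤ X / Y`.  In a class
`coord v j ≡ ± coord v k` modulo `q` and the two coordinates determine the triple: with the
numbers `N_j(x)`, `N_k(x)` of coordinates in the class `x` mod `q`,
`∑ N_j(x) N_k(± x) ≤ √(∑ N_j ^ 2 * ∑ N_k ^ 2) ≤ C X ^ ε √(4 Y_j Y_k)` by `S_ENG` (with `2 Y_j`, or `X` if
`2 Y_j > X`). -/
def S_RCH : Prop := ∀ κ ν ε : ℝ, 3 ≤ κ → 0 < ν → 0 < ε → ∃ C : ℝ, 1 ≤ C ∧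
  ∀ (X Y : ℝ) (F : Finset (ℕ × ℕ)), 1 ≤ X → 1 ≤ Y → Y ≤ X →
  (∀ v ∈ F, IsTri v ∧ (RR v : ℝ) ≤ X ∧ hh v ≤ κ * Real.log X ∧
    ∃ i, Y ≤ (rad (coord v i) : ℝ) ∧ Rich ν X (coord v i)) →
  (F.card : ℝ) ≤ C * X ^ (ν + ε) * Real.sqrt (X / Y)

/-- STR: structure.  `E = ⌈6 / ν⌉`, `A = E + 3`, `N = ⌈2 / ν⌉ + 1`.  Large primes `> X ^ (ν / 2)`: fewer
than `2 / ν` (product `≤ X`).  `α` = part of the primes `≤ X ^ (ν / 2)`.  If `n` is not rich: let `H` be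
the part of the primes `≤ X ^ (ν / 2)` with exponents `≥ E`; if `rad H > X ^ (ν / 2)`, a minimal set of its
primes with product `> X ^ (ν / 2)` has product `≤ X ^ ν` and gives a divisor
`≥ (X ^ (ν / 2)) ^ E ≥ X ^ 3` of `n`: rich; so `rad H ≤ X ^ (ν / 2)`, and `H < X ^ 3` (not rich); the
primes with exponents `< E` have a part `≤ X ^ E`: `α ≤ X ^ A` is one base with exponent `1`. -/
def S_STR : Prop := ∀ ν : ℝ, 0 < ν → ν ≤ 1 → ∃ (N : ℕ) (A : ℝ), 1 ≤ A ∧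
  ∀ (X : ℝ) (n : ℕ), 1 ≤ X → 0 < n → (rad n : ℝ) ≤ X →
    (∃ α b : ℕ, n = α * b ∧ rad α ≤ rad n ∧ Pool.PW.PowProd N (X ^ A) b) ∧
    (¬ Rich ν X n → Pool.PW.PowProd N (X ^ A) n)

/-- POW: triples with a power product and two other coordinates which are power products up to
coefficients of radical `≤ Y`.  `Pool.PW.S_PWR` with `X ^ A` and `ε / (2 A)`: `K0, η, C0`; `K = A K0`;
`X ≥ X0(κ)`: `κ log X ≤ X ^ η`; smaller `X`: at most `X ^ (2 κ)` pairs.  Coefficient vectors: one entry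
is `1`, the others are `≤ X ^ κ` of radical `≤ Y`: at most `3 (C X ^ (ε / 4) Y) ^ 2` (`S_CNT`). -/
def S_POW : Prop := ∀ (N : ℕ) (A ε : ℝ), 1 ≤ A → 0 < ε → ∃ K : ℝ, 1 ≤ K ∧ ∀ κ : ℝ, 1 ≤ κ →
  ∃ C : ℝ, 1 ≤ C ∧ ∀ (X Y : ℝ) (F : Finset (ℕ × ℕ)), 1 ≤ X → 1 ≤ Y →
  (∀ v ∈ F, IsTri v ∧ K * Real.log X ≤ hh v ∧ hh v ≤ κ * Real.log X ∧
    (∃ i, Pool.PW.PowProd N (X ^ A) (coord v i)) ∧
    ∀ i, Pool.PW.PowProd N (X ^ A) (coord v i) ∨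
      ∃ α b : ℕ, coord v i = α * b ∧ (rad α : ℝ) ≤ Y ∧ Pool.PW.PowProd N (X ^ A) b) →
  (F.card : ℝ) ≤ C * X ^ ε * Y ^ 2

/-- WAA: THEOREM.  Dyadic in the radical: `Z / 2 < RR v ≤ Z`; `Z < 8`: boundedly many pairs
(`hh v ≤ κ log 8`).  `ν = ε / 4`.  Either some coordinate `i` is `Rich ν Z` with `rad ≥ Z ^ (1 / 5)`:
`S_RCH` with `Y = Z ^ (1 / 5)`, exponent `2 / 5 + ν + ε / 4`; or all rich coordinates have radical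
`< Z ^ (1 / 5)`: one coordinate has radical `≥ (Z / 2) ^ (1 / 3) ≥ Z ^ (1 / 5)`, it is not rich, so it
is a power product (`S_STR`), and `S_POW` applies with `Y = Z ^ (1 / 5)`; `K = 2 K_POW`
(`log (Z / 2) ≥ (log Z) / 2`). -/
def S_WAA : Prop := ∀ ε : ℝ, 0 < ε → ∃ K : ℝ, 1 ≤ K ∧ ∀ κ : ℝ, 1 ≤ κ → ∃ C : ℝ, 1 ≤ C ∧
  ∀ (X : ℝ) (F : Finset (ℕ × ℕ)), 1 ≤ X →
  (∀ v ∈ F, IsTri v ∧ (RR v : ℝ) ≤ X ∧ K * Real.log (RR v) ≤ hh v ∧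
    hh v ≤ κ * Real.log (RR v)) →
  (F.card : ℝ) ≤ C * X ^ (2 / 5 + ε)

end Pool.RIC
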